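import Pool.Agent.Lib.MP_546eea_al.Inv

set_option autoImplicit false

namespace Pool.Agent.Results.MP_546eea_al.CFTreeLike

open Pool.Agent.Lib.MP_546eea_al

/-- Let `M` be an inverse monoid generated (as an inverse monoid) by a finite alphabet `A`:
`τ` sends the letter `inl a` to a generator and the letter `inr a` to its inverse, and every
element of `M` is the value of a word. If the language of the Schützenberger automaton of a word
`w` is accepted by a pushdown automaton, then the Schützenberger graph of `w` is quasi-isometric to
a tree. In particular, if all these languages are context-free then `M` is tree-like. -/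
theorem result (A : Type) [Finite A] (M : Type) [Monoid M] (hM : IsInverseMonoid M)
    (τ : A ⊕ A → M) (hτ : ∀ a, IsInv (τ (Sum.inl a)) (τ (Sum.inr a)))
    (hgen : Function.Surjective (eval τ)) (w : List (A ⊕ A))
    (hL : IsContextFree (schutzenbergerLanguage τ w)) :
    QuasiIsometricToTree (schutzenbergerGraph τ w) :=
  quasiIsometricToTree hM hτ hgen hL

end Pool.Agent.Results.MP_546eea_al.CFTreeLike
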